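import Pool.Agent.H24.Strip2

set_option autoImplicit false

namespace Pool.Agent.Results.MP_cb2135_lc.NPHardZero

open Pool.Agent.H11.PT

/-- the two strings admit a common strip partition -/
def CommonStrip (S T : List ℕ) : Prop :=
  ∃ B C : List (List ℕ), B.flatten = S ∧ C.flatten = T ∧ (∀ b ∈ B, 2 ≤ b.length) ∧
    (∀ c ∈ C, 2 ≤ c.length) ∧ B.Perm C

theorem result : ∀ L : List Bool → Prop, InNP L →
    ∃ f : List Bool → List ℕ × List ℕ, PolyTime id bits f ∧
      ∀ x, (∀ a, (f x).1.count a = (f x).2.count a) ∧ (L x ↔ CommonStrip (f x).1 (f x).2) := by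
  intro L hL
  obtain ⟨f, hf, e⟩ := Pool.Agent.H24.Strip.hard L hL
  exact ⟨f, hf.polyTime_raw, fun x => ⟨fun a => (e x).1.count_eq a, (e x).2⟩⟩

end Pool.Agent.Results.MP_cb2135_lc.NPHardZero
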